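import Pool.Agent.Lib.MP_bcc96c_an.UnbDefs
import Pool.Agent.Lib.MP_bcc96c_an.Unb

set_option maxSynthPendingDepth 3

namespace Pool.Agent.Results.MP_bcc96c_an.LocalUnits

open Pool.Agent.Lib.MP_bcc96c_an

universe u

/-- An approximately amenable Banach algebra in which the elements fixed by a central element are
dense has a bounded two-sided approximate identity. -/
theorem result (A : Type u) [NonUnitalNormedRing A] [NormedSpace ℂ A] [IsScalarTower ℂ A A]
    [SMulCommClass ℂ A A] [CompleteSpace A] (h : AA A)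
    (hD : Dense {x : A | ∃ z : A, (∀ y, z * y = y * z) ∧ x * z = x}) :
    ∃ K : ℝ, ∀ F : Finset A, ∀ ε : ℝ, 0 < ε →
      ∃ e : A, ‖e‖ ≤ K ∧ ∀ a ∈ F, ‖e * a - a‖ < ε ∧ ‖a * e - a‖ < ε :=
  bai_of_aa hD (h (XM A) (LM A) (RM A) ⟨LM_mul, RM_mul, LM_RM⟩ (DM A) DM_mul)

end Pool.Agent.Results.MP_bcc96c_an.LocalUnits
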