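import Pool.Agent.Lib.MP_bcc96c_an.UnbDefs
import Pool.Agent.Lib.MP_bcc96c_an.FrMain

set_option maxSynthPendingDepth 3

namespace Pool.Agent.Results.MP_bcc96c_an.MultiplierNorm

open Pool.Agent.Lib.MP_bcc96c_an

universe u

/-- In an approximately amenable Banach algebra the norm is dominated by the left multiplier norm
or by the right multiplier norm. -/
theorem result (A : Type u) [NonUnitalNormedRing A] [NormedSpace ℂ A] [IsScalarTower ℂ A A]
    [SMulCommClass ℂ A A] [CompleteSpace A] (h : AA A) :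
    (∃ C : ℝ, ∀ (x : A) (K : ℝ), 0 ≤ K → (∀ y : A, ‖x * y‖ ≤ K * ‖y‖) → ‖x‖ ≤ C * K) ∨
    (∃ C : ℝ, ∀ (x : A) (K : ℝ), 0 ≤ K → (∀ y : A, ‖y * x‖ ≤ K * ‖y‖) → ‖x‖ ≤ C * K) := by
  rcases mult_norm (h (XM A) (LM A) (RM A) ⟨LM_mul, RM_mul, LM_RM⟩ (DM A) DM_mul) with
    ⟨C, hC⟩ | ⟨C, hC⟩
  · refine Or.inl ⟨|C|, fun x K hK hx => (hC x).trans ?_⟩
    exact mul_le_mul (le_abs_self C) (ContinuousLinearMap.opNorm_le_bound _ hK hx)
      (norm_nonneg _) (abs_nonneg C)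
  · refine Or.inr ⟨|C|, fun x K hK hx => (hC x).trans ?_⟩
    exact mul_le_mul (le_abs_self C) (ContinuousLinearMap.opNorm_le_bound _ hK hx)
      (norm_nonneg _) (abs_nonneg C)

end Pool.Agent.Results.MP_bcc96c_an.MultiplierNorm
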