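import Pool.Agent.Lib.MP_bcc96c_an.Defs
import Pool.Agent.Lib.MP_bcc96c_an.Main

set_option maxSynthPendingDepth 3

namespace Pool.Agent.Results.MP_bcc96c_an.OneSided

open Pool.Agent.Lib.MP_bcc96c_an

universe u

/-- A boundedly approximately amenable Banach algebra has a bounded left approximate identity
or a bounded right approximate identity. -/
theorem result (A : Type u) [NonUnitalNormedRing A] [NormedSpace ℂ A] [IsScalarTower ℂ A A]
    [SMulCommClass ℂ A A] [CompleteSpace A] (h : BAA A) : HasBLAI A ∨ HasBRAI A := by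
  obtain ⟨C, hC⟩ := h (XM A) (LM A) (RM A) ⟨LM_mul, RM_mul, LM_RM⟩ (DM A) DM_mul
  exact (dichotomy hC).2

end Pool.Agent.Results.MP_bcc96c_an.OneSided
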