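import Pool.Agent.Lib.MP_bcc96c_an.Defs
import Pool.Agent.Lib.MP_bcc96c_an.Ar

set_option maxSynthPendingDepth 3

namespace Pool.Agent.Results.MP_bcc96c_an.TwoSided

open Pool.Agent.Lib.MP_bcc96c_an

universe u

/-- The two Arens extensions of the bounded bilinear form `β` to the bidual agree. -/
def RegularForm {A : Type u} [NormedAddCommGroup A] [NormedSpace ℂ A]
    (β : A →L[ℂ] A →L[ℂ] ℂ) : Prop :=
  ∀ p q : (A →L[ℂ] ℂ) →L[ℂ] ℂ, p (q.comp β) = q (p.comp β.flip)

/-- The forms `μ ((w x - x w) y)` and `μ (y (w x - x w))` are Arens regular. -/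
def RegularCommutator {A : Type u} [NonUnitalNormedRing A] [NormedSpace ℂ A] (w : A) : Prop :=
  ∀ (μ : A →L[ℂ] ℂ) (β : A →L[ℂ] A →L[ℂ] ℂ),
    ((∀ x y, β x y = μ ((w * x - x * w) * y)) ∨ ∀ x y, β x y = μ (y * (w * x - x * w))) →
    RegularForm β

/-- No proper closed left ideal and no proper closed right ideal contains `W`. -/
def Generates {A : Type u} [NonUnitalNormedRing A] [NormedSpace ℂ A] (W : Set A) : Prop :=
  ∀ I : Submodule ℂ A, IsClosed (I : Set A) → W ⊆ I →
    ((∀ a : A, ∀ x ∈ I, a * x ∈ I) ∨ ∀ a : A, ∀ x ∈ I, x * a ∈ I) → I = ⊤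

/-- A boundedly approximately amenable Banach algebra generated, as a closed left ideal and as a
closed right ideal, by its elements with regular commutator forms has a bounded two-sided
approximate identity. -/
theorem result (A : Type u) [NonUnitalNormedRing A] [NormedSpace ℂ A] [IsScalarTower ℂ A A]
    [SMulCommClass ℂ A A] [CompleteSpace A] (h : BAA A)
    (hW : Generates {w : A | RegularCommutator w}) :
    ∃ K : ℝ, ∀ F : Finset A, ∀ ε : ℝ, 0 < ε →
      ∃ e : A, ‖e‖ ≤ K ∧ ∀ a ∈ F, ‖e * a - a‖ < ε ∧ ‖a * e - a‖ < ε :=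
  regular_two_sided h _ (fun _ hw => hw) hW

end Pool.Agent.Results.MP_bcc96c_an.TwoSided
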